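import Pool.Agent.Y495.SM.Main

/-!
MP_a29272_gt, Q1 has a negative answer in every dimension `n ≥ 3`: there is a smooth Riemannian
metric `g` on `ℝ^n` and a closed ball `M = {‖x‖ ≤ R}` such that `(M, g)` is simple (strictly convex
boundary, no trapped geodesic, no conjugate points) and such that no `C²` function on the interior
of `M` has positive definite Hessian everywhere.

The metric is `u⁻² |dx|²` with `u = (1 + |x|²)/2 - ρ`: a spherical cap slightly smaller than a
hemisphere (`R² = 1 - 2δ`) perturbed in a layer of width `O(δ)` along its boundary by
`ρ = b δ² κ(x) X((1 - |x|²)/(2δ) - 1)`, where `κ` is a cut-off to a small neighbourhood of the edges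
of a regular geodesic tetrahedron in a great `2`-sphere of the boundary sphere. The effect of `ρ` is
to turn the six edges, pushed into the interior, into geodesics; they form a geodesic net, balanced
at its four vertices, which excludes strictly convex functions. A great circle arc of length nearly
`π` leaves the net for a definite time. This yields, along each geodesic in `M`, a positive
supersolution `ψ` of the Jacobi equation, `ψ'' + K ψ < 0` with `K` the maximum of the sectional
curvatures: `ψ` is the height above the boundary, rescaled by `1/δ`, minus `1`, plus a small
correction that depends on the geodesic. Hence there are no conjugate points, and no geodesic in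
`M` has length `π`.
-/

namespace Pool.Agent.Results.MP_a29272_gt.SimpleNoConvexFunction

open Pool.Agent.Y495.SM Metric

theorem result : ∀ n : ℕ, 3 ≤ n → ∃ (g : MetricField n) (R : ℝ), IsSimple g R ∧
    ∀ f : E n → ℝ, ContDiffOn ℝ 2 f (ball 0 R) →
      ∃ x ∈ ball (0 : E n) R, ∃ v : E n, v ≠ 0 ∧ hess g f x v ≤ 0 :=
  simple_no_convex

end Pool.Agent.Results.MP_a29272_gt.SimpleNoConvexFunction
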